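import Mathlib

/-!
# The overall non-determinism hierarchy of propagating programmed grammars is strict
-/

set_option autoImplicit false

namespace Pool.Agent.Results.MP_67c3d0_lc.OverallHierarchy

open scoped Classical

/-- A programmed grammar (without appearance checking) with terminal alphabet `T`: nonterminals
`N`, labels `Ψ` (both finite), a start symbol, and for each label `r` the rule
`lhs r → rhs r` with the success field `succ r`. -/
structure PG (T : Type) where
  N : Type
  Ψ : Type
  [finN : Fintype N]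
  [finΨ : Fintype Ψ]
  start : N
  lhs : Ψ → N
  rhs : Ψ → List (N ⊕ T)
  succ : Ψ → Finset Ψ

attribute [instance] PG.finN PG.finΨ

variable {T : Type}

/-- `(u, r) ⇒ (v, q)` if `u = u₁ A u₂`, `v = u₁ x u₂` and `q ∈ σ_r`, where `r : A → x`. -/
def PG.Step (G : PG T) (c d : List (G.N ⊕ T) × G.Ψ) : Prop :=
  d.2 ∈ G.succ c.2 ∧ ∃ u₁ u₂, c.1 = u₁ ++ .inl (G.lhs c.2) :: u₂ ∧ d.1 = u₁ ++ G.rhs c.2 ++ u₂

/-- the generated language: all `w ∈ T^*` with `(S, p) ⇒^* (w, q)` for some labels `p`, `q` -/
def PG.lang (G : PG T) : Language T :=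
  {w | ∃ p q, Relation.ReflTransGen G.Step ([.inl G.start], p) (w.map .inr, q)}

/-- no rule is erasing -/
def PG.Propagating (G : PG T) : Prop := ∀ r, G.rhs r ≠ []

/-- the overall non-determinism of a grammar -/
noncomputable def PG.ond (G : PG T) : ℕ :=
  ∑ r ∈ Finset.univ.filter (fun r => 2 ≤ (G.succ r).card), (G.succ r).card

/-- the family of the languages (over `T`) generated by propagating programmed grammars -/
def PropFamily (T : Type) : Set (Language T) := {L | ∃ G : PG T, G.Propagating ∧ G.lang = L}

/-- the least overall non-determinism of a propagating programmed grammar that generates `L` -/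
noncomputable def ondLang (L : Language T) : ℕ :=
  sInf {k | ∃ G : PG T, G.Propagating ∧ G.lang = L ∧ G.ond = k}

/-- the family of the languages over `T` with overall non-determinism at most `n` -/
def OND (T : Type) (n : ℕ) : Set (Language T) := {L | L ∈ PropFamily T ∧ ondLang L ≤ n}

/-- the union of the languages `{a_i}^+` -/
def pows {n : ℕ} (a : Fin n → T) : Language T := {w | ∃ i m, 1 ≤ m ∧ w = List.replicate m (a i)}

section Lower

variable (G : PG T)

/-- the rules in the list are applied one after the other -/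
def Run : List G.Ψ → List (G.N ⊕ T) → List (G.N ⊕ T) → Prop
  | [], u, v => u = v
  | r :: l, u, v => ∃ u₁ u₂, u = u₁ ++ .inl (G.lhs r) :: u₂ ∧ Run l (u₁ ++ G.rhs r ++ u₂) v

variable {G}

theorem exists_run {w : List (G.N ⊕ T)} {q : G.Ψ} {c : List (G.N ⊕ T) × G.Ψ}
    (h : Relation.ReflTransGen G.Step c (w, q)) :
    ∃ l : List G.Ψ, Run G l c.1 w ∧ List.IsChain (fun r q => q ∈ G.succ r) l ∧
      (l = [] ∨ l.head? = some c.2) := by
  induction h using Relation.ReflTransGen.head_induction_on with
  | refl => exact ⟨[], rfl, List.isChain_nil, Or.inl rfl⟩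
  | @head c d hcd _ ih =>
    obtain ⟨l, h1, h2, h3⟩ := ih
    obtain ⟨h4, u1, u2, h5, h6⟩ := hcd
    refine ⟨c.2 :: l, ⟨u1, u2, h5, h6 ▸ h1⟩, ?_, Or.inr rfl⟩
    rcases l with _ | ⟨x, l⟩
    · exact List.isChain_singleton _
    · rcases h3 with h3 | h3
      · simp at h3
      · simp only [List.head?_cons, Option.some.injEq] at h3
        subst h3
        exact List.isChain_cons_cons.2 ⟨h4, h2⟩

/-- terminals never vanish -/
theorem run_mem {l : List G.Ψ} : ∀ {u v : List (G.N ⊕ T)}, Run G l u v → ∀ {b : T},
    (Sum.inr b : G.N ⊕ T) ∈ u → Sum.inr b ∈ v := by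
  induction l with
  | nil => intro u v h b hb; rw [← (show u = v from h)]; exact hb
  | cons r l ih =>
    rintro u v ⟨u1, u2, rfl, h⟩ b hb
    apply ih h
    simp only [List.mem_append, List.mem_cons, reduceCtorEq, false_or] at hb ⊢
    tauto

theorem run_append {l l' : List G.Ψ} : ∀ {u v : List (G.N ⊕ T)}, Run G (l ++ l') u v →
    ∃ x, Run G l u x ∧ Run G l' x v := by
  induction l with
  | nil => intro u v h; exact ⟨u, rfl, h⟩
  | cons r l ih =>
    rintro u v ⟨u1, u2, h1, h⟩
    obtain ⟨x, h2, h3⟩ := ih h
    exact ⟨x, ⟨u1, u2, h1, h2⟩, h3⟩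

/-- the terminals of the applied rules occur in the word -/
theorem run_rule {l : List G.Ψ} {u v : List (G.N ⊕ T)} (h : Run G l u v) {r : G.Ψ} (hr : r ∈ l)
    {b : T} (hb : Sum.inr b ∈ G.rhs r) : Sum.inr b ∈ v := by
  obtain ⟨l1, l2, rfl⟩ := List.append_of_mem hr
  obtain ⟨x, _, u1, u2, _, h2⟩ := run_append h
  exact run_mem h2 (by simp [hb])

/-- the last rule introduces the terminal -/
theorem run_last (hG : G.Propagating) {l : List G.Ψ} {r : G.Ψ} {u : List (G.N ⊕ T)} {m : ℕ}
    {b : T} (h : Run G (l ++ [r]) u ((List.replicate m b).map Sum.inr)) :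
    Sum.inr b ∈ G.rhs r := by
  obtain ⟨x, _, u1, u2, _, h2⟩ := run_append h
  have h3 : u1 ++ G.rhs r ++ u2 = (List.replicate m b).map Sum.inr := h2
  obtain ⟨y, l', hy⟩ := List.exists_cons_of_ne_nil (hG r)
  have h4 : y ∈ (List.replicate m b).map (Sum.inr : T → G.N ⊕ T) := by
    rw [← h3, hy]; simp
  obtain ⟨z, hz, rfl⟩ := List.mem_map.1 h4
  rw [List.eq_of_mem_replicate hz] at hy
  rw [hy]
  simp

/-- the number of the occurrences of a nonterminal -/
noncomputable def cnt {N T : Type} (A : N) (u : List (N ⊕ T)) : ℕ :=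
  u.countP (fun x => decide (x = .inl A))

/-- the numbers of the nonterminals and the length depend on the applied rules only -/
theorem run_count {l : List G.Ψ} : ∀ {u v u' v' : List (G.N ⊕ T)}, Run G l u v → Run G l u' v' →
    (∀ A : G.N, cnt A u = cnt A u') → u.length = u'.length →
    (∀ A : G.N, cnt A v = cnt A v') ∧ v.length = v'.length := by
  induction l with
  | nil =>
    intro u v u' v' h h' h1 h2
    rw [← (show u = v from h), ← (show u' = v' from h')]
    exact ⟨h1, h2⟩
  | cons r l ih =>
    rintro u v u' v' ⟨u1, u2, rfl, h⟩ ⟨u1', u2', rfl, h'⟩ h1 h2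
    apply ih h h'
    · intro A
      have h3 := h1 A
      simp only [cnt, List.countP_append, List.countP_cons] at h3 ⊢
      omega
    · simp only [List.length_append, List.length_cons] at h2 ⊢
      omega

/-- two runs to terminal words such that one applies the rules of the other and then perhaps
some more -/
theorem run_prefix {l l' : List G.Ψ} {w w' : List T} {u : List (G.N ⊕ T)}
    (h : Run G l u (w.map Sum.inr)) (h' : Run G l' u (w'.map Sum.inr)) (hl : l <+: l') :
    w.length = w'.length := by
  obtain ⟨t, rfl⟩ := hl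
  obtain ⟨x, h1, h2⟩ := run_append h'
  obtain ⟨h3, h4⟩ := run_count h h1 (fun _ => rfl) rfl
  rcases t with _ | ⟨r, t⟩
  · have h5 : x = w'.map Sum.inr := h2
    rw [h5] at h4
    simpa using h4
  · obtain ⟨u1, u2, rfl, _⟩ := h2
    have h5 := h3 (G.lhs r)
    have h6 : cnt (G.lhs r) (w.map (Sum.inr : T → G.N ⊕ T)) = 0 := by
      rw [cnt, List.countP_eq_zero]; simp
    rw [h6] at h5
    simp [cnt] at h5

/-- chains of two relations that are together functional are comparable -/
theorem chain_prefix {X : Type} {R R' : X → X → Prop} (hR : ∀ x y y', R x y → R' x y' → y = y')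
    {l : List X} : ∀ {l' : List X} {p : X}, List.IsChain R (p :: l) → List.IsChain R' (p :: l') →
    (p :: l) <+: (p :: l') ∨ (p :: l') <+: (p :: l) := by
  induction l with
  | nil => intro l' p _ _; left; exact ⟨l', rfl⟩
  | cons x l ih =>
    intro l' p h h'
    rcases l' with _ | ⟨x', l'⟩
    · right; exact ⟨x :: l, rfl⟩
    · rw [List.isChain_cons_cons] at h h'
      obtain rfl := hR _ _ _ h.1 h'.1
      rcases ih h.2 h'.2 with h1 | h1
      · left; exact (List.prefix_cons_inj p).2 h1
      · right; exact (List.prefix_cons_inj p).2 h1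

/-- a deterministic set of derivations gives only finitely many words `b^m` -/
theorem finite_words {R : G.Ψ → G.Ψ → Prop} (hR : ∀ x y y', R x y → R x y' → y = y') {b : T}
    (h : ∀ m, 1 ≤ m → ∃ l : List G.Ψ, List.IsChain R l ∧
      Run G l [.inl G.start] ((List.replicate m b).map Sum.inr)) : False := by
  have h1 : ∀ m, ∃ p : G.Ψ, ∃ l : List G.Ψ, List.IsChain R (p :: l) ∧
      Run G (p :: l) [.inl G.start] ((List.replicate (m + 1) b).map Sum.inr) := by
    intro m
    obtain ⟨l, h2, h3⟩ := h (m + 1) (by omega)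
    rcases l with _ | ⟨p, l⟩
    · have h4 : [.inl G.start] = (List.replicate (m + 1) b).map Sum.inr := h3
      simp [List.replicate_succ] at h4
    · exact ⟨p, l, h2, h3⟩
  choose p l h2 h3 using h1
  obtain ⟨m, m', hne, heq⟩ := Finite.exists_ne_map_eq_of_infinite p
  have h4 := h2 m'
  have h5 := h3 m'
  rw [← heq] at h4 h5
  rcases chain_prefix hR (h2 m) h4 with h6 | h6
  · have := run_prefix (h3 m) h5 h6
    simp at this
    exact hne this
  · have := run_prefix h5 (h3 m) h6
    simp at this
    exact hne this.symm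

/-- the labels with at most one successor -/
def R0 (G : PG T) (r q : G.Ψ) : Prop := q ∈ G.succ r ∧ (G.succ r).card ≤ 1

/-- the last edge with a choice -/
theorem last_branch {l : List G.Ψ} (h : List.IsChain (fun r q => q ∈ G.succ r) l) :
    List.IsChain (R0 G) l ∨ ∃ l₁ r q l₂, l = l₁ ++ r :: q :: l₂ ∧ q ∈ G.succ r ∧
      2 ≤ (G.succ r).card ∧ List.IsChain (R0 G) (q :: l₂) := by
  induction l with
  | nil => left; exact List.isChain_nil
  | cons r l ih =>
    rcases l with _ | ⟨q, l⟩
    · left; exact List.isChain_singleton _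
    · rw [List.isChain_cons_cons] at h
      rcases ih h.2 with h1 | ⟨l1, r', q', l2, h1, h2, h3, h4⟩
      · by_cases h2 : 2 ≤ (G.succ r).card
        · right; exact ⟨[], r, q, l, rfl, h.1, h2, h1⟩
        · left
          exact List.isChain_cons_cons.2 ⟨⟨h.1, by omega⟩, h1⟩
      · right
        exact ⟨r :: l1, r', q', l2, by rw [h1]; rfl, h2, h3, h4⟩

/-- the last choice of a derivation of a word `b^m` does not occur in the derivations of the
words `b'^m'` -/
theorem key (hG : G.Propagating) {b b' : T} {m m' : ℕ} {u u' : List (G.N ⊕ T)}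
    {l₁ l₂ l₁' l₂' : List G.Ψ} {q : G.Ψ}
    (h : Run G (l₁ ++ q :: l₂) u ((List.replicate m b).map Sum.inr))
    (hc : List.IsChain (R0 G) (q :: l₂))
    (h' : Run G (l₁' ++ q :: l₂') u' ((List.replicate m' b').map Sum.inr))
    (hc' : List.IsChain (fun r q => q ∈ G.succ r) (q :: l₂')) : b = b' := by
  have hR : ∀ x y y' : G.Ψ, R0 G x y → y' ∈ G.succ x → y = y' := by
    rintro x y y' ⟨h1, h2⟩ h3
    exact Finset.card_le_one.1 h2 _ h1 _ h3
  have aux : ∀ {b b' : T} {m m' : ℕ} {u u' : List (G.N ⊕ T)} {l₁ l₂ l₁' l₂' : List G.Ψ},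
      Run G (l₁ ++ q :: l₂) u ((List.replicate m b).map Sum.inr) →
      Run G (l₁' ++ q :: l₂') u' ((List.replicate m' b').map Sum.inr) →
      (q :: l₂) <+: (q :: l₂') → b = b' := by
    intro b b' m m' u u' l₁ l₂ l₁' l₂' h h' hp
    obtain ⟨l3, z, hz⟩ : ∃ l3 z, q :: l₂ = l3 ++ [z] :=
      ⟨(q :: l₂).dropLast, (q :: l₂).getLast (by simp), (List.dropLast_append_getLast _).symm⟩
    have h1 : Sum.inr b ∈ G.rhs z := by
      rw [hz, ← List.append_assoc] at h
      exact run_last hG h
    have h2 : z ∈ l₁' ++ q :: l₂' := by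
      apply List.mem_append_right
      apply hp.subset
      rw [hz]; simp
    have h3 := run_rule h' h2 h1
    obtain ⟨y, hy, hy'⟩ := List.mem_map.1 h3
    rw [← Sum.inr_injective hy']
    exact List.eq_of_mem_replicate hy
  rcases chain_prefix hR hc hc' with h1 | h1
  · exact aux h h' h1
  · exact (aux h' h h1).symm

/-- the set of the pairs of a label with at least two successors and one of its successors -/
noncomputable def edges (G : PG T) : Finset (Σ _ : G.Ψ, G.Ψ) :=
  (Finset.univ.filter (fun r => 2 ≤ (G.succ r).card)).sigma G.succ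

theorem card_edges (G : PG T) : (edges G).card = G.ond := by
  rw [edges, Finset.card_sigma]; rfl

/-- **the lower bound** -/
theorem lower {n : ℕ} (hn : 1 ≤ n) {a : Fin n → T} (ha : Function.Injective a)
    (hG : G.Propagating) (hL : G.lang = pows a) : n + 1 ≤ G.ond := by
  by_contra hlt
  -- the derivations
  have hder : ∀ i m, 1 ≤ m → ∃ l : List G.Ψ, List.IsChain (fun r q => q ∈ G.succ r) l ∧
      Run G l [.inl G.start] ((List.replicate m (a i)).map Sum.inr) := by
    intro i m hm
    have h1 : List.replicate m (a i) ∈ G.lang := by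
      rw [hL]; exact ⟨i, m, hm, rfl⟩
    obtain ⟨p, q, h2⟩ := h1
    obtain ⟨l, h3, h4, _⟩ := exists_run h2
    exact ⟨l, h4, h3⟩
  -- the last choices
  have hlast : ∀ i, ∃ (r q : G.Ψ) (m : ℕ) (l₁ l₂ : List G.Ψ), q ∈ G.succ r ∧
      2 ≤ (G.succ r).card ∧ List.IsChain (R0 G) (q :: l₂) ∧
      Run G (l₁ ++ q :: l₂) [.inl G.start] ((List.replicate m (a i)).map Sum.inr) := by
    intro i
    by_contra hno
    refine finite_words (R := R0 G) (b := a i) ?_ ?_
    · rintro x y y' ⟨h1, h2⟩ ⟨h3, _⟩
      exact Finset.card_le_one.1 h2 _ h1 _ h3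
    · intro m hm
      obtain ⟨l, h1, h2⟩ := hder i m hm
      rcases last_branch h1 with h3 | ⟨l1, r, q, l2, h3, h4, h5, h6⟩
      · exact ⟨l, h3, h2⟩
      · exfalso
        apply hno
        refine ⟨r, q, m, l1 ++ [r], l2, h4, h5, h6, ?_⟩
        rw [h3] at h2
        simpa using h2
  choose r q m l₁ l₂ hq hr hc hrun using hlast
  let e : Fin n → Σ _ : G.Ψ, G.Ψ := fun i => ⟨r i, q i⟩
  have he : ∀ i, e i ∈ edges G := by
    intro i
    simp [edges, e, hq, hr]
  have hchain : ∀ i, List.IsChain (fun r q => q ∈ G.succ r) (q i :: l₂ i) :=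
    fun i => (hc i).imp (fun _ _ h => h.1)
  have hinj : Function.Injective e := by
    intro i j hij
    have h1 : q i = q j := by
      simp only [e, Sigma.mk.injEq] at hij
      exact eq_of_heq hij.2
    have h2 := hrun j
    have h3 := hchain j
    rw [← h1] at h2 h3
    exact ha (key hG (hrun i) (hc i) h2 h3)
  have himg : Finset.univ.image e = edges G := by
    apply Finset.eq_of_subset_of_card_le
    · intro x hx
      obtain ⟨i, _, rfl⟩ := Finset.mem_image.1 hx
      exact he i
    · rw [card_edges, Finset.card_image_of_injective _ hinj, Finset.card_univ, Fintype.card_fin]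
      omega
  -- all derivations of the words `a_0^m` make only the choice `e_0`
  let i0 : Fin n := ⟨0, hn⟩
  refine finite_words (b := a i0)
    (R := fun x y => y ∈ G.succ x ∧ (2 ≤ (G.succ x).card → y = q i0)) ?_ ?_
  · rintro x y y' ⟨h1, h2⟩ ⟨h3, h4⟩
    by_cases h5 : 2 ≤ (G.succ x).card
    · rw [h2 h5, h4 h5]
    · exact Finset.card_le_one.1 (by omega) _ h1 _ h3
  · intro m' hm'
    obtain ⟨l, h1, h2⟩ := hder i0 m' hm'
    refine ⟨l, ?_, h2⟩
    -- every pair of consecutive labels
    have h3 : ∀ (t t' : List G.Ψ) (x y : G.Ψ), l = t ++ x :: y :: t' →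
        y ∈ G.succ x ∧ (2 ≤ (G.succ x).card → y = q i0) := by
      intro t t' x y hl
      rw [hl] at h1 h2
      have h4 : List.IsChain (fun r q => q ∈ G.succ r) (x :: y :: t') :=
        (List.isChain_append.1 h1).2.1
      rw [List.isChain_cons_cons] at h4
      refine ⟨h4.1, fun h5 => ?_⟩
      have h6 : (⟨x, y⟩ : Σ _ : G.Ψ, G.Ψ) ∈ edges G := by
        simp [edges, h4.1, h5]
      rw [← himg] at h6
      obtain ⟨j, _, hj⟩ := Finset.mem_image.1 h6
      have h7 : q j = y := by
        simp only [e, Sigma.mk.injEq] at hj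
        exact eq_of_heq hj.2
      have h8 : Run G ((t ++ [x]) ++ q j :: t') [.inl G.start]
          ((List.replicate m' (a i0)).map Sum.inr) := by
        rw [h7]; simpa using h2
      have h9 : List.IsChain (fun r q => q ∈ G.succ r) (q j :: t') := by
        rw [h7]; exact h4.2
      have h10 := ha (key hG (hrun j) (hc j) h8 h9)
      rw [← h7, h10]
    clear h1 h2
    induction l with
    | nil => exact List.isChain_nil
    | cons x l ih =>
      rcases l with _ | ⟨y, l⟩
      · exact List.isChain_singleton _
      · refine List.isChain_cons_cons.2 ⟨h3 [] l x y rfl, ih ?_⟩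
        intro t t' x' y' hl
        exact h3 (x :: t) t' x' y' (by rw [hl]; rfl)

end Lower

section Upper

/-- the nonterminals -/
inductive N2 where
  | S
  | A

noncomputable instance : Fintype N2 := ⟨{.S, .A}, fun x => by cases x <;> simp⟩

/-- the labels -/
inductive L2 (n : ℕ) where
  | p
  | r
  | s (i : Fin n)
  | f (i : Fin n)
  deriving Fintype

variable {n : ℕ} (a : Fin n → T)

/-- the left-hand sides -/
def glhs : L2 n → N2
  | .p => .S
  | .r => .A
  | .s _ => .S
  | .f _ => .A

/-- the right-hand sides -/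
def grhs : L2 n → List (N2 ⊕ T)
  | .p => [.inl .A]
  | .r => [.inl .A, .inl .A]
  | .s i => [.inr (a i)]
  | .f i => [.inr (a i)]

/-- the success fields -/
noncomputable def suc : L2 n → Finset (L2 n)
  | .p => {.r}
  | .r => insert .r (Finset.univ.image .f)
  | .s i => {.s i}
  | .f i => {.f i}

/-- the grammar of the upper bound: `p : S → A {r}`, `r : A → AA {r, f_1, …, f_n}`,
`s_i : S → a_i {s_i}`, `f_i : A → a_i {f_i}` -/
noncomputable def gr : PG T where
  N := N2
  Ψ := L2 n
  start := .S
  lhs := glhs
  rhs := grhs a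
  succ := suc

theorem gr_propagating : (gr a).Propagating := by
  intro l
  change grhs a l ≠ []
  cases l <;> simp [grhs]

theorem gr_ond (hn : 1 ≤ n) : (gr a).ond = n + 1 := by
  have h1 : (suc (n := n) L2.r).card = n + 1 := by
    rw [suc, Finset.card_insert_of_notMem (by simp), Finset.card_image_of_injective _
      (fun i j h => by cases h; rfl)]
    simp
  have h2 : Finset.univ.filter (fun x : L2 n => 2 ≤ (suc x).card) = {L2.r} := by
    ext l
    rw [Finset.mem_filter, Finset.mem_singleton]
    cases l with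
    | p => simp [suc]
    | r => simp only [Finset.mem_univ, true_and, iff_true]; rw [h1]; omega
    | s i => simp [suc]
    | f i => simp [suc]
  change ∑ x ∈ Finset.univ.filter (fun x : L2 n => 2 ≤ (suc x).card), (suc x).card = n + 1
  rw [h2, Finset.sum_singleton, h1]

/-- the steps of the grammar -/
def St (c d : List (N2 ⊕ T) × L2 n) : Prop :=
  d.2 ∈ suc c.2 ∧ ∃ u₁ u₂, c.1 = u₁ ++ .inl (glhs c.2) :: u₂ ∧ d.1 = u₁ ++ grhs a c.2 ++ u₂

/-- the configurations that may occur -/
inductive Inv : List (N2 ⊕ T) × L2 n → Prop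
  | i0 (l : L2 n) : Inv ([.inl .S], l)
  | i1 (k : ℕ) (l : L2 n) : Inv (List.replicate (k + 1) (.inl .A), l)
  | i2 (i : Fin n) (w : List (N2 ⊕ T)) (hw : ∀ x ∈ w, x = .inl .A ∨ x = .inr (a i))
      (h0 : w ≠ []) : Inv (w, .f i)
  | i3 (i : Fin n) : Inv ([.inr (a i)], .s i)

theorem inv_step {c d : List (N2 ⊕ T) × L2 n} (h : Inv a c) (hs : St a c d) : Inv a d := by
  obtain ⟨d1, l'⟩ := d
  obtain ⟨hl', u1, u2, h1, h2⟩ := hs
  simp only at h2 hl'
  subst h2
  cases h with
  | i0 l =>
    simp only at h1 hl' ⊢
    rcases u1 with _ | ⟨x, u1⟩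
    · simp only [List.nil_append, List.cons.injEq] at h1
      obtain ⟨h2, rfl⟩ := h1
      have h3 := Sum.inl.inj h2
      cases l with
      | p =>
        have h4 := Inv.i1 (a := a) 0 l'
        simpa [grhs] using h4
      | r => simp [glhs] at h3
      | s i =>
        have h4 : l' = .s i := by simpa [suc] using hl'
        subst h4
        have h5 := Inv.i3 (a := a) i
        simpa [grhs] using h5
      | f i => simp [glhs] at h3
    · simp at h1
  | i1 k l =>
    simp only at h1 hl' ⊢
    have h2 : ∀ x ∈ u1 ++ .inl (glhs l) :: u2, x = (.inl .A : N2 ⊕ T) := by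
      rw [← h1]; intro x hx; exact List.eq_of_mem_replicate hx
    have h3 : u1 = List.replicate u1.length (.inl .A) :=
      List.eq_replicate_of_mem (fun x hx => h2 x (by simp [hx]))
    have h4 : u2 = List.replicate u2.length (.inl .A) :=
      List.eq_replicate_of_mem (fun x hx => h2 x (by simp [hx]))
    have h5 : (.inl (glhs l) : N2 ⊕ T) = .inl .A := h2 _ (by simp)
    have h6 := Sum.inl.inj h5
    cases l with
    | p => simp [glhs] at h6
    | r =>
      have h7 : u1 ++ grhs a L2.r ++ u2 =
          List.replicate (u1.length + 1 + u2.length + 1) (.inl .A) := by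
        rw [List.eq_replicate_iff]
        constructor
        · simp [grhs]; omega
        · intro x hx
          simp only [grhs, List.mem_append, List.mem_cons, List.not_mem_nil, or_false] at hx
          rcases hx with (hx | hx | hx) | hx
          · exact h2 x (by simp [hx])
          · exact hx
          · exact hx
          · exact h2 x (by simp [hx])
      rw [h7]
      exact .i1 _ _
    | s i => simp [glhs] at h6
    | f i =>
      have h7 : l' = .f i := by simpa [suc] using hl'
      subst h7
      refine .i2 i _ ?_ (by simp [grhs])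
      intro x hx
      simp only [grhs, List.mem_append, List.mem_cons, List.not_mem_nil, or_false] at hx
      rcases hx with (hx | hx) | hx
      · left; exact h2 x (by simp [hx])
      · right; exact hx
      · left; exact h2 x (by simp [hx])
  | i2 i w hw h0 =>
    simp only at h1 hl' ⊢
    have h7 : l' = .f i := by simpa [suc] using hl'
    subst h7
    refine .i2 i _ ?_ (by simp [grhs])
    intro x hx
    simp only [grhs, List.mem_append, List.mem_cons, List.not_mem_nil, or_false] at hx
    rcases hx with (hx | hx) | hx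
    · exact hw x (by rw [h1]; simp [hx])
    · right; exact hx
    · exact hw x (by rw [h1]; simp [hx])
  | i3 i =>
    exfalso
    simp only at h1
    rcases u1 with _ | ⟨x, u1⟩ <;> simp at h1

theorem reach_inv {c : List (N2 ⊕ T) × L2 n} {p : L2 n}
    (h : Relation.ReflTransGen (St a) ([.inl .S], p) c) : Inv a c := by
  induction h with
  | refl => exact .i0 p
  | tail _ hs ih => exact inv_step a ih hs

theorem gr_lang : (gr a).lang = pows a := by
  have hdef : (gr a).lang = {w | ∃ p q : L2 n, Relation.ReflTransGen (St a)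
      ([.inl .S], p) (w.map .inr, q)} := rfl
  rw [hdef]
  ext w
  constructor
  · rintro ⟨p, q, h⟩
    have h1 : Inv a (w.map Sum.inr, q) := reach_inv a h
    generalize hc : ((w.map Sum.inr, q) : List (N2 ⊕ T) × L2 n) = c at h1
    cases h1 with
    | i0 l =>
      simp only [Prod.mk.injEq] at hc
      rcases w with _ | ⟨x, w⟩ <;> simp at hc
    | i1 k l =>
      simp only [Prod.mk.injEq] at hc
      rcases w with _ | ⟨x, w⟩ <;> simp [List.replicate_succ] at hc
    | i2 i w' hw h0 =>
      simp only [Prod.mk.injEq] at hc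
      obtain ⟨rfl, rfl⟩ := hc
      refine ⟨i, w.length, ?_, ?_⟩
      · rcases w with _ | ⟨x, w⟩
        · simp at h0
        · simp
      · apply List.eq_replicate_of_mem
        intro x hx
        rcases hw (.inr x) (List.mem_map_of_mem hx) with h2 | h2
        · simp at h2
        · exact Sum.inr_injective h2
    | i3 i =>
      simp only [Prod.mk.injEq] at hc
      refine ⟨i, 1, le_rfl, ?_⟩
      have h2 : w.map (Sum.inr : T → N2 ⊕ T) = [a i].map Sum.inr := hc.1
      have h3 := List.map_injective_iff.2 Sum.inr_injective h2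
      rw [h3]; rfl
  · rintro ⟨i, m, hm, rfl⟩
    obtain ⟨k, rfl⟩ : ∃ k, m = k + 1 := ⟨m - 1, by omega⟩
    rcases k with _ | k
    · refine ⟨L2.s i, L2.s i, Relation.ReflTransGen.single ⟨?_, [], [], rfl, ?_⟩⟩
      · simp [suc]
      · simp [grhs]
    · -- the first part
      have h1 : ∀ (j : ℕ), Relation.ReflTransGen (St a)
          ([.inl N2.S], L2.p) (List.replicate (j + 1) (.inl N2.A), L2.r) := by
        intro j
        induction j with
        | zero =>
          refine Relation.ReflTransGen.single ⟨?_, [], [], rfl, ?_⟩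
          · simp [suc]
          · simp [grhs]
        | succ j ih =>
          refine ih.tail ⟨?_, [], List.replicate j (.inl N2.A), rfl, ?_⟩
          · simp [suc]
          · simp [grhs, List.replicate_succ]
      have h2 : Relation.ReflTransGen (St a)
          ([.inl N2.S], L2.p) (List.replicate (k + 2) (.inl N2.A), L2.f i) := by
        refine (h1 k).tail ⟨?_, [], List.replicate k (.inl N2.A), rfl, ?_⟩
        · simp [suc]
        · simp [grhs, List.replicate_succ]
      have h3 : ∀ (j : ℕ) (v : List (N2 ⊕ T)), Relation.ReflTransGen (St a)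
          (v ++ List.replicate j (.inl N2.A), L2.f i)
          (v ++ List.replicate j (.inr (a i)), L2.f i) := by
        intro j
        induction j with
        | zero => intro v; exact Relation.ReflTransGen.refl
        | succ j ih =>
          intro v
          have h4 := ih (v ++ [.inr (a i)])
          refine Relation.ReflTransGen.head (b := (v ++ [.inr (a i)] ++
            List.replicate j (.inl N2.A), L2.f i)) ⟨?_, v, List.replicate j (.inl N2.A), ?_, ?_⟩ ?_
          · simp [suc]
          · simp [glhs, List.replicate_succ]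
          · simp [grhs]
          · simpa [List.replicate_succ] using h4
      have h4 := h3 (k + 2) []
      refine ⟨L2.p, L2.f i, ?_⟩
      rw [List.map_replicate]
      exact h2.trans (by simpa using h4)

end Upper

/-- **The overall non-determinism of `{a_1}^+ ∪ … ∪ {a_n}^+` with respect to all propagating
programmed grammars is `n + 1`, and the hierarchy
`OND(P^{-ε}, n) ⊊ OND(P^{-ε}, n + 1)` is strict for every `n ≥ 1`** (over every alphabet with at
least `n` letters). -/
theorem result (n : ℕ) (hn : 1 ≤ n) :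
    (∀ (T : Type) (a : Fin n → T), Function.Injective a →
      pows a ∈ PropFamily T ∧ ondLang (pows a) = n + 1) ∧
    (∀ T : Type, OND T n ⊆ OND T (n + 1)) ∧
    (∀ (T : Type) [Fintype T], n ≤ Fintype.card T → OND T n ⊂ OND T (n + 1)) := by
  have h1 : ∀ (T : Type) (a : Fin n → T), Function.Injective a →
      pows a ∈ PropFamily T ∧ ondLang (pows a) = n + 1 := by
    intro T a ha
    refine ⟨⟨gr a, gr_propagating a, gr_lang a⟩, ?_⟩
    have hne : {k | ∃ G : PG T, G.Propagating ∧ G.lang = pows a ∧ G.ond = k}.Nonempty :=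
      ⟨n + 1, gr a, gr_propagating a, gr_lang a, gr_ond a hn⟩
    apply le_antisymm
    · exact Nat.sInf_le ⟨gr a, gr_propagating a, gr_lang a, gr_ond a hn⟩
    · obtain ⟨G, h1, h2, h3⟩ := Nat.sInf_mem hne
      rw [ondLang, ← h3]
      exact lower hn ha h1 h2
  have h2 : ∀ T : Type, OND T n ⊆ OND T (n + 1) :=
    fun T L hL => ⟨hL.1, hL.2.trans (Nat.le_succ n)⟩
  refine ⟨h1, h2, fun T _ hT => ⟨h2 T, fun hsub => ?_⟩⟩
  obtain ⟨e⟩ : Nonempty (Fin n ↪ T) := by
    rw [Function.Embedding.nonempty_iff_card_le]
    simpa using hT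
  obtain ⟨h3, h4⟩ := h1 T e e.injective
  have h5 : pows e ∈ OND T (n + 1) := ⟨h3, h4.le⟩
  have h6 := (hsub h5).2
  rw [h4] at h6
  omega

end Pool.Agent.Results.MP_67c3d0_lc.OverallHierarchy
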